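import Pool.Agent.Helper81.PW.Defs
import Pool.Agent.Helper27.TF.Frame

/-!
Project PW (MP_b8862a_ag), block PW-D: Weyl's dimension formula in coordinates, types `B`, `C`, `D`.
-/

set_option linter.unusedSectionVars false
set_option linter.unusedVariables false

open Module PF TF

namespace PW

variable {E : Type*} [NormedAddCommGroup E] [InnerProductSpace ℝ E] {Φ X : Finset E} {m n : ℕ} {l v : E}
  {e : Fin m → E} {c : ℝ} {d : ℕ}

/-- the roots with two nonzero coordinates -/
theorem fr_pairs43 (e : Fin m → E) (c : ℝ) (a : E) :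
    (∃ i j, i ≠ j ∧ (a = c • (e i + e j) ∨ a = c • (e i - e j) ∨ a = -(c • (e i + e j)))) ↔
      ∃ i j, i ≠ j ∧ ∃ s t : ℝ, (s = 1 ∨ s = -1) ∧ (t = 1 ∨ t = -1) ∧ a = c • (s • e i + t • e j) := by
  constructor
  · rintro ⟨i, j, hij, rfl | rfl | rfl⟩
    · exact ⟨i, j, hij, 1, 1, Or.inl rfl, Or.inl rfl, by simp⟩
    · exact ⟨i, j, hij, 1, -1, Or.inl rfl, Or.inr rfl, by simp [sub_eq_add_neg]⟩
    · refine ⟨i, j, hij, -1, -1, Or.inr rfl, Or.inr rfl, ?_⟩
      rw [neg_smul, neg_smul, one_smul, one_smul, ← neg_add, smul_neg]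
  · rintro ⟨i, j, hij, s, t, rfl | rfl, rfl | rfl, rfl⟩
    · exact ⟨i, j, hij, Or.inl (by simp)⟩
    · exact ⟨i, j, hij, Or.inr (Or.inl (by simp [sub_eq_add_neg]))⟩
    · exact ⟨j, i, hij.symm, Or.inr (Or.inl (by rw [neg_smul, one_smul, one_smul]; congr 1; abel))⟩
    · refine ⟨i, j, hij, Or.inr (Or.inr ?_)⟩
      rw [neg_smul, neg_smul, one_smul, one_smul, ← neg_add, smul_neg]

/-- signed permutations of the frame -/
theorem fr_perm43 (F : Fr Φ m e c d) (σ : Equiv.Perm (Fin m)) (s : Fin m → ℝ) (hs : ∀ i, s i = 1 ∨ s i = -1) :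
    Fr Φ m (fun i => s i • e (σ i)) c d where
  on := by
    rw [orthonormal_iff_ite]
    intro i j
    rw [inner_smul_left, inner_smul_right, F.inner_e]
    simp only [σ.injective.eq_iff, conj_trivial]
    by_cases h : i = j
    · subst h
      rcases hs i with h | h <;> simp [h]
    · simp [h]
  pos := F.pos
  le := F.le
  mem := by
    intro a
    have hs2 : ∀ i, s i * s i = 1 := fun i => by rcases hs i with h | h <;> rw [h] <;> norm_num
    have hpm : ∀ i : Fin m, ∀ t : ℝ, (t = 1 ∨ t = -1) → (t * s i = 1 ∨ t * s i = -1) := by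
      rintro i t (rfl | rfl) <;> rcases hs i with h | h <;> rw [h] <;> norm_num
    rw [F.mem, fr_pairs43 e c a, fr_pairs43 (fun i => s i • e (σ i)) c a]
    apply or_congr
    · constructor
      · rintro ⟨i, j, hij, t, t', ht, ht', rfl⟩
        refine ⟨σ.symm i, σ.symm j, fun h => hij (σ.symm.injective h), t * s (σ.symm i), t' * s (σ.symm j),
          hpm _ _ ht, hpm _ _ ht', ?_⟩
        simp only [Equiv.apply_symm_apply, smul_smul, mul_assoc, hs2, mul_one]
      · rintro ⟨i, j, hij, t, t', ht, ht', rfl⟩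
        refine ⟨σ i, σ j, fun h => hij (σ.injective h), t * s i, t' * s j, hpm _ _ ht, hpm _ _ ht', ?_⟩
        simp only [smul_smul]
    · apply and_congr Iff.rfl
      constructor
      · rintro ⟨i, h⟩
        refine ⟨σ.symm i, ?_⟩
        rcases hs (σ.symm i) with h1 | h1
        · simpa [h1] using h
        · simp only [h1, Equiv.apply_symm_apply, neg_smul, one_smul, smul_neg, neg_neg]
          exact h.symm
      · rintro ⟨i, h⟩
        refine ⟨σ i, ?_⟩
        rcases hs i with h1 | h1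
        · simpa [h1] using h
        · simp only [h1, neg_smul, one_smul, smul_neg, neg_neg] at h
          exact h.symm

/-- the coordinates of `c (e i + s e j)` -/
theorem fr_co43 (F : Fr Φ m e c d) (s : ℝ) (i j k : Fin m) :
    (inner ℝ (c • (e i + s • e j)) (e k) : ℝ) = c * ((if i = k then 1 else 0) + s * (if j = k then 1 else 0)) := by
  rw [inner_smul_left, inner_add_left, inner_smul_left, F.inner_e, F.inner_e]
  simp only [conj_trivial]

theorem fr_inj43 (F : Fr Φ m e c d) {s t : ℝ} (hs : s = 1 ∨ s = -1) (ht : t = 1 ∨ t = -1) {i j i' j' : Fin m}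
    (hij : i < j) (hij' : i' < j') (h : c • (e i + s • e j) = c • (e i' + t • e j')) : i = i' ∧ j = j' ∧ s = t := by
  have hc := F.pos.ne'
  have key : ∀ k : Fin m, (if i = k then (1 : ℝ) else 0) + s * (if j = k then 1 else 0) =
      (if i' = k then 1 else 0) + t * (if j' = k then 1 else 0) := by
    intro k
    have h1 := fr_co43 F s i j k
    rw [h, fr_co43 F t i' j' k] at h1
    exact (mul_left_cancel₀ hc h1).symm
  have hs0 : s ≠ 0 := by rcases hs with rfl | rfl <;> norm_num
  have ht0 : t ≠ 0 := by rcases ht with rfl | rfl <;> norm_num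
  have k1 := key i
  have k2 := key j
  have k3 := key i'
  have k4 := key j'
  rw [if_pos rfl, if_neg (ne_of_gt hij), mul_zero, add_zero] at k1
  rw [if_neg (ne_of_lt hij), if_pos rfl, mul_one, zero_add] at k2
  rw [if_pos (rfl : i' = i'), if_neg (ne_of_gt hij'), mul_zero, add_zero] at k3
  rw [if_neg (ne_of_lt hij'), if_pos (rfl : j' = j'), mul_one, zero_add] at k4
  have e1 : i' = i ∨ j' = i := by
    by_contra hcon
    push Not at hcon
    rw [if_neg hcon.1, if_neg hcon.2] at k1
    norm_num at k1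
  have e2 : i' = j ∨ j' = j := by
    by_contra hcon
    push Not at hcon
    rw [if_neg hcon.1, if_neg hcon.2, mul_zero, add_zero] at k2
    exact hs0 k2
  have e3 : i' = i := by
    rcases e1 with e1 | e1
    · exact e1
    · exfalso
      rcases e2 with e2 | e2
      · rw [e1, e2] at hij'
        exact lt_asymm hij hij'
      · rw [← e1, ← e2] at hij
        exact lt_irrefl _ hij
  have e4 : j' = j := by
    rcases e2 with e2 | e2
    · rw [e3] at e2
      exact absurd e2 (ne_of_lt hij)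
    · exact e2
  refine ⟨e3.symm, e4.symm, ?_⟩
  rw [if_neg (by rw [e3]; exact ne_of_lt hij), if_pos e4, mul_one, zero_add] at k2
  exact k2

/-- the positive roots in an ordered frame -/
theorem ps_sorted43 (F : Fr Φ m e c d) (hs : ∀ i j, i < j → (inner ℝ v (e j) : ℝ) < inner ℝ v (e i))
    (h0 : ∀ i, 0 ≤ (inner ℝ v (e i) : ℝ)) (hd : d ≠ 0 → ∀ i, 0 < (inner ℝ v (e i) : ℝ))
    {M : Type*} [CommMonoid M] (g : E → M) :
    ∏ a ∈ Ps Φ v, g a = (∏ i, ∏ j ∈ Finset.Ioi i, g (c • (e i + (-1 : ℝ) • e j))) *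
      (∏ i, ∏ j ∈ Finset.Ioi i, g (c • (e i + (1 : ℝ) • e j))) *
        (if d = 0 then 1 else ∏ i, g ((d * c : ℝ) • e i)) := by
  classical
  have hc := F.pos
  set D : Finset ((_ : Fin m) × Fin m) := (Finset.univ : Finset (Fin m)).sigma fun i => Finset.Ioi i with hD
  have hmemD : ∀ q : (_ : Fin m) × Fin m, q ∈ D ↔ q.1 < q.2 := by
    intro q
    simp [hD]
  set A : ℝ → Finset E := fun s => D.image fun q => c • (e q.1 + s • e q.2) with hA
  set B : Finset E := if d = 0 then ∅ else Finset.univ.image fun i => (d * c : ℝ) • e i with hB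
  have hvs : ∀ (s : ℝ) (i j : Fin m), (inner ℝ v (c • (e i + s • e j)) : ℝ) = c * (inner ℝ v (e i) + s * inner ℝ v (e j)) := by
    intro s i j
    rw [inner_smul_right, inner_add_right, inner_smul_right]
  have hmem2 : ∀ {i j : Fin m} (hij : i ≠ j) {s : ℝ} (h : s = 1 ∨ s = -1), c • (e i + s • e j) ∈ Φ := by
    intro i j hij s h
    rw [F.mem, fr_pairs43]
    exact Or.inl ⟨i, j, hij, 1, s, Or.inl rfl, h, by rw [one_smul]⟩
  have hPs : Ps Φ v = A (-1) ∪ A 1 ∪ B := by
    ext a
    unfold Ps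
    rw [Finset.mem_filter, Finset.mem_union, Finset.mem_union]
    constructor
    · rintro ⟨ha, hpos⟩
      rcases (F.mem a).1 ha with h1 | ⟨hd0, i, h1⟩
      · rw [fr_pairs43] at h1
        obtain ⟨i, j, hij, s, t, h2, h3, rfl⟩ := h1
        left
        -- arrange `i < j`
        obtain ⟨i, j, s, t, hij, h2, h3, h4⟩ : ∃ i' j' : Fin m, ∃ s' t' : ℝ, i' < j' ∧ (s' = 1 ∨ s' = -1) ∧
            (t' = 1 ∨ t' = -1) ∧ c • (s • e i + t • e j) = c • (s' • e i' + t' • e j') := by
          rcases lt_or_gt_of_ne hij with h | h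
          · exact ⟨i, j, s, t, h, h2, h3, rfl⟩
          · exact ⟨j, i, t, s, h, h3, h2, by rw [add_comm]⟩
        rw [h4] at hpos ⊢
        have h5 : (inner ℝ v (c • (s • e i + t • e j)) : ℝ) = c * (s * inner ℝ v (e i) + t * inner ℝ v (e j)) := by
          rw [inner_smul_right, inner_add_right, inner_smul_right, inner_smul_right]
        rw [h5] at hpos
        have h6 := hs i j hij
        have h7 := h0 j
        have h8 : 0 < s * inner ℝ v (e i) + t * inner ℝ v (e j) := by
          by_contra hcon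
          push Not at hcon
          nlinarith
        have hs1 : s = 1 := by
          rcases h2 with h2 | h2
          · exact h2
          · exfalso
            rw [h2] at h8
            rcases h3 with h3 | h3 <;> rw [h3] at h8 <;> linarith
        rw [hs1, one_smul]
        rcases h3 with h3 | h3
        · right
          rw [h3]
          exact Finset.mem_image.2 ⟨⟨i, j⟩, (hmemD _).2 hij, rfl⟩
        · left
          rw [h3]
          exact Finset.mem_image.2 ⟨⟨i, j⟩, (hmemD _).2 hij, rfl⟩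
      · right
        rw [hB, if_neg hd0]
        refine Finset.mem_image.2 ⟨i, Finset.mem_univ _, ?_⟩
        rcases h1 with h1 | h1
        · exact h1.symm
        · exfalso
          rw [h1, inner_neg_right, inner_smul_right] at hpos
          have h2 := h0 i
          have h3 : (0 : ℝ) ≤ d * c := by positivity
          have h4 := mul_nonneg h3 h2
          linarith
    · rintro ((h | h) | h)
      · obtain ⟨q, hq, rfl⟩ := Finset.mem_image.1 h
        have h1 := (hmemD q).1 hq
        refine ⟨hmem2 (ne_of_lt h1) (Or.inr rfl), ?_⟩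
        rw [hvs]
        have h2 := hs _ _ h1
        have : 0 < (inner ℝ v (e q.1) : ℝ) + -1 * inner ℝ v (e q.2) := by linarith
        positivity
      · obtain ⟨q, hq, rfl⟩ := Finset.mem_image.1 h
        have h1 := (hmemD q).1 hq
        refine ⟨hmem2 (ne_of_lt h1) (Or.inl rfl), ?_⟩
        rw [hvs]
        have h2 := hs _ _ h1
        have h3 := h0 q.2
        have : 0 < (inner ℝ v (e q.1) : ℝ) + 1 * inner ℝ v (e q.2) := by linarith
        positivity
      · by_cases hd0 : d = 0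
        · rw [hB, if_pos hd0] at h
          exact absurd h (Finset.notMem_empty _)
        · rw [hB, if_neg hd0] at h
          obtain ⟨i, _, rfl⟩ := Finset.mem_image.1 h
          refine ⟨(F.mem _).2 (Or.inr ⟨hd0, i, Or.inl rfl⟩), ?_⟩
          rw [inner_smul_right]
          have h1 := hd hd0 i
          have h2 : (0 : ℝ) < d := by exact_mod_cast Nat.pos_of_ne_zero hd0
          positivity
  have hinj : ∀ s : ℝ, (s = 1 ∨ s = -1) →
      Set.InjOn (fun q : (_ : Fin m) × Fin m => c • (e q.1 + s • e q.2)) (D : Set ((_ : Fin m) × Fin m)) := by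
    rintro s hs' ⟨i, j⟩ hq ⟨i', j'⟩ hq' heq
    have h1 := (hmemD _).1 (Finset.mem_coe.1 hq)
    have h2 := (hmemD _).1 (Finset.mem_coe.1 hq')
    obtain ⟨h3, h4, _⟩ := fr_inj43 F hs' hs' h1 h2 heq
    simp only at h3 h4
    subst h3
    subst h4
    rfl
  have hdis1 : Disjoint (A (-1)) (A 1) := by
    rw [Finset.disjoint_left]
    intro x h1 h2
    obtain ⟨q, hq, h3⟩ := Finset.mem_image.1 h1
    obtain ⟨q', hq', h4⟩ := Finset.mem_image.1 h2
    have h5 := (fr_inj43 F (s := -1) (t := 1) (Or.inr rfl) (Or.inl rfl) ((hmemD q).1 hq) ((hmemD q').1 hq')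
      (by rw [h3, h4])).2.2
    norm_num at h5
  have hdis2 : Disjoint (A (-1) ∪ A 1) B := by
    rw [Finset.disjoint_left]
    intro x h1 h2
    by_cases hd0 : d = 0
    · rw [hB, if_pos hd0] at h2
      exact absurd h2 (Finset.notMem_empty _)
    · rw [hB, if_neg hd0] at h2
      obtain ⟨k, _, h3⟩ := Finset.mem_image.1 h2
      obtain ⟨s, hs', q, hq, h4⟩ : ∃ s : ℝ, (s = 1 ∨ s = -1) ∧ ∃ q ∈ D, c • (e q.1 + s • e q.2) = x := by
        rcases Finset.mem_union.1 h1 with h | h
        · obtain ⟨q, hq, h4⟩ := Finset.mem_image.1 h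
          exact ⟨-1, Or.inr rfl, q, hq, h4⟩
        · obtain ⟨q, hq, h4⟩ := Finset.mem_image.1 h
          exact ⟨1, Or.inl rfl, q, hq, h4⟩
      have hq' := (hmemD q).1 hq
      have h5 : ∀ j : Fin m, j ≠ k → (inner ℝ x (e j) : ℝ) = 0 := by
        intro j hj
        rw [← h3, inner_smul_left, F.inner_e, if_neg (Ne.symm hj), mul_zero]
      have hs0 : s ≠ 0 := by rcases hs' with rfl | rfl <;> norm_num
      have h6 : (inner ℝ x (e q.1) : ℝ) ≠ 0 := by
        rw [← h4, fr_co43 F, if_pos rfl, if_neg (ne_of_gt hq'), mul_zero, add_zero, mul_one]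
        exact hc.ne'
      have h7 : (inner ℝ x (e q.2) : ℝ) ≠ 0 := by
        rw [← h4, fr_co43 F, if_neg (ne_of_lt hq'), if_pos rfl, mul_one, zero_add]
        exact mul_ne_zero hc.ne' hs0
      have h8 : q.1 = k := by
        by_contra hne
        exact h6 (h5 _ hne)
      have h9 : q.2 = k := by
        by_contra hne
        exact h7 (h5 _ hne)
      exact (ne_of_lt hq') (h8.trans h9.symm)
  rw [hPs, Finset.prod_union hdis2, Finset.prod_union hdis1, hA]
  simp only
  rw [Finset.prod_image (hinj (-1) (Or.inr rfl)), Finset.prod_image (hinj 1 (Or.inl rfl)), hD, Finset.prod_sigma,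
    Finset.prod_sigma]
  congr 1
  by_cases hd0 : d = 0
  · rw [hB, if_pos hd0, if_pos hd0, Finset.prod_empty]
  · rw [hB, if_neg hd0, if_neg hd0, Finset.prod_image]
    intro i _ j _ h
    by_contra hne
    have h1 : (inner ℝ ((d * c : ℝ) • e i) (e i) : ℝ) = d * c := by
      rw [inner_smul_left, F.inner_e, if_pos rfl]
      simp
    have h2 : ((d : ℝ) * c) • e i = (d * c : ℝ) • e j := h
    rw [h2, inner_smul_left, F.inner_e, if_neg (Ne.symm hne), mul_zero] at h1
    have h3 : (0 : ℝ) < d := by exact_mod_cast Nat.pos_of_ne_zero hd0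
    have : (0 : ℝ) < d * c := by positivity
    linarith

/-- the coordinates of the sum of the positive roots -/
theorem v_sorted43 (h : Wd Φ X n l v) (F : Fr Φ m e c d)
    (hs : ∀ i j, i < j → (inner ℝ v (e j) : ℝ) < inner ℝ v (e i))
    (h0 : ∀ i, 0 ≤ (inner ℝ v (e i) : ℝ)) (hd : d ≠ 0 → ∀ i, 0 < (inner ℝ v (e i) : ℝ)) (k : Fin m) :
    (inner ℝ v (e k) : ℝ) = c * (Vd d m k : ℝ) := by
  classical
  have h1 : (inner ℝ v (e k) : ℝ) = ∑ a ∈ Ps Φ v, inner ℝ a (e k) := by
    conv_lhs => rw [h.v_eq]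
    rw [sum_inner]
  have h2 : ∑ a ∈ Ps Φ v, (inner ℝ a (e k) : ℝ) =
      (∑ i, ∑ j ∈ Finset.Ioi i, (inner ℝ (c • (e i + (-1 : ℝ) • e j)) (e k) : ℝ)) +
      (∑ i, ∑ j ∈ Finset.Ioi i, (inner ℝ (c • (e i + (1 : ℝ) • e j)) (e k) : ℝ)) +
        (if d = 0 then 0 else ∑ i, (inner ℝ ((d * c : ℝ) • e i) (e k) : ℝ)) := by
    have h3 := ps_sorted43 (M := Multiplicative ℝ) F hs h0 hd (fun a => Multiplicative.ofAdd (inner ℝ a (e k) : ℝ))
    apply Multiplicative.ofAdd.injective
    rw [ofAdd_sum, h3, ofAdd_add, ofAdd_add, ofAdd_sum, ofAdd_sum]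
    simp only [ofAdd_sum]
    congr 1
  have h4 : ∀ s : ℝ, ∑ i : Fin m, ∑ j ∈ Finset.Ioi i, (inner ℝ (c • (e i + s • e j)) (e k) : ℝ) =
      c * (((m : ℝ) - 1 - (k : ℕ)) + s * (k : ℕ)) := by
    intro s
    simp only [fr_co43 F]
    have h5 : ∀ a : Fin m, ∑ b ∈ Finset.Ioi a, c * ((if a = k then (1 : ℝ) else 0) + s * (if b = k then 1 else 0)) =
        c * ((if a = k then ((m - 1 - (k : ℕ) : ℕ) : ℝ) else 0) + s * (if a < k then 1 else 0)) := by
      intro a
      rw [← Finset.mul_sum, Finset.sum_add_distrib, Finset.sum_const, Fin.card_Ioi, nsmul_eq_mul, ← Finset.mul_sum,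
        Finset.sum_ite_eq']
      simp only [Finset.mem_Ioi]
      congr 2
      by_cases ha : a = k
      · subst ha
        simp
      · simp [ha]
    rw [Finset.sum_congr rfl fun a _ => h5 a, ← Finset.mul_sum, Finset.sum_add_distrib, Finset.sum_ite_eq',
      if_pos (Finset.mem_univ _), ← Finset.mul_sum, Finset.sum_ite, Finset.sum_const_zero, add_zero, Finset.sum_const,
      nsmul_eq_mul, mul_one]
    have h6 : (Finset.univ.filter fun a : Fin m => a < k).card = (k : ℕ) := by
      have h7 : (Finset.univ.filter fun a : Fin m => a < k) = Finset.Iio k := by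
        ext a
        simp
      rw [h7, Fin.card_Iio]
    rw [h6]
    have h8 := k.2
    have h9 : m - 1 - (k : ℕ) + 1 + (k : ℕ) = m := by omega
    have h10 : ((m - 1 - (k : ℕ) : ℕ) : ℝ) + 1 + (k : ℕ) = m := by exact_mod_cast h9
    have h11 : ((m - 1 - (k : ℕ) : ℕ) : ℝ) = (m : ℝ) - 1 - (k : ℕ) := by linarith
    rw [h11]
  rw [h1, h2, h4, h4]
  have h12 : (if d = 0 then (0 : ℝ) else ∑ i, (inner ℝ ((d * c : ℝ) • e i) (e k) : ℝ)) = d * c := by
    by_cases hd0 : d = 0
    · simp [hd0]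
    · rw [if_neg hd0]
      simp only [inner_smul_left, F.inner_e, conj_trivial, mul_ite, mul_one, mul_zero]
      rw [Finset.sum_ite_eq', if_pos (Finset.mem_univ _)]
  rw [h12]
  unfold Vd
  push_cast
  ring

/-- the formula in an ordered frame -/
theorem dim_fr_sorted43 (h : Wd Φ X n l v) (F : Fr Φ m e c d)
    (hs : ∀ i j, i < j → (inner ℝ v (e j) : ℝ) < inner ℝ v (e i))
    (h0 : ∀ i, 0 ≤ (inner ℝ v (e i) : ℝ)) (hd : d ≠ 0 → ∀ i, 0 < (inner ℝ v (e i) : ℝ)) {k : Fin m → ℤ}
    (hk : ∀ i, (inner ℝ l (e i) : ℝ) = c * k i) :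
    (∀ i j, i < j → |k j| ≤ k i) ∧ n * Pd d m 0 = Pd d m k ∧ Pd d m 0 ≠ 0 := by
  classical
  have hc := F.pos
  have hv := v_sorted43 h F hs h0 hd
  have hmem2 : ∀ {i j : Fin m} (hij : i < j) {s : ℝ} (h : s = 1 ∨ s = -1), c • (e i + s • e j) ∈ Ps Φ v := by
    intro i j hij s hs'
    unfold Ps
    rw [Finset.mem_filter]
    refine ⟨?_, ?_⟩
    · rw [F.mem, fr_pairs43]
      exact Or.inl ⟨i, j, ne_of_lt hij, 1, s, Or.inl rfl, hs', by rw [one_smul]⟩
    · rw [inner_smul_right, inner_add_right, inner_smul_right]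
      have h1 := hs i j hij
      have h2 := h0 j
      have h3 : 0 < (inner ℝ v (e i) : ℝ) + s * inner ℝ v (e j) := by
        rcases hs' with rfl | rfl <;> linarith
      positivity
  have hmon : ∀ i j, i < j → |k j| ≤ k i := by
    intro i j hij
    have h1 := h.dom _ (hmem2 hij (s := 1) (Or.inl rfl))
    have h2 := h.dom _ (hmem2 hij (s := -1) (Or.inr rfl))
    rw [inner_smul_right, inner_add_right, inner_smul_right, hk, hk] at h1 h2
    have h3 : 0 ≤ (k i : ℝ) + k j := by
      by_contra hcon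
      push Not at hcon
      have : c * ((k i : ℝ) + k j) < 0 := mul_neg_of_pos_of_neg hc hcon
      nlinarith
    have h4 : 0 ≤ (k i : ℝ) - k j := by
      by_contra hcon
      push Not at hcon
      have : c * ((k i : ℝ) - k j) < 0 := mul_neg_of_pos_of_neg hc hcon
      nlinarith
    rw [abs_le]
    constructor
    · have : 0 ≤ k i + k j := by exact_mod_cast h3
      omega
    · have : 0 ≤ k i - k j := by exact_mod_cast h4
      omega
  have hVpos : ∀ i : Fin m, 0 ≤ Vd d m i := by
    intro i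
    unfold Vd
    have := i.2
    omega
  have hVlt : ∀ i j : Fin m, i < j → Vd d m j < Vd d m i := by
    intro i j hij
    unfold Vd
    have : (i : ℕ) < (j : ℕ) := hij
    omega
  have hne : Pd d m 0 ≠ 0 := by
    unfold Pd
    apply mul_ne_zero
    · rw [Finset.prod_ne_zero_iff]
      intro i _
      rw [Finset.prod_ne_zero_iff]
      intro j hj
      have h1 := hVlt i j (Finset.mem_Ioi.1 hj)
      have h2 := hVpos j
      simp only [Pi.zero_apply, mul_zero, zero_add]
      nlinarith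
    · by_cases hd0 : d = 0
      · rw [if_pos hd0]
        exact one_ne_zero
      · rw [if_neg hd0, Finset.prod_ne_zero_iff]
        intro i _
        simp only [Pi.zero_apply, mul_zero, zero_add]
        unfold Vd
        have := i.2
        omega
  set Kst : ℝ := (∏ i : Fin m, ∏ _j ∈ Finset.Ioi i, c ^ 4) * (if d = 0 then 1 else ∏ _i : Fin m, (d * c ^ 2 : ℝ)) with hKst
  have hK0 : Kst ≠ 0 := by
    rw [hKst]
    apply mul_ne_zero
    · rw [Finset.prod_ne_zero_iff]
      intro i _
      rw [Finset.prod_ne_zero_iff]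
      intro j _
      positivity
    · by_cases hd0 : d = 0
      · rw [if_pos hd0]
        exact one_ne_zero
      · rw [if_neg hd0, Finset.prod_ne_zero_iff]
        intro i _
        have : (0 : ℝ) < d := by exact_mod_cast Nat.pos_of_ne_zero hd0
        positivity
  have hprod : ∀ (x : Fin m → ℤ) (w : E), (∀ i, (inner ℝ w (e i) : ℝ) = c * ((2 * x i + Vd d m i : ℤ) : ℝ)) →
      ∏ a ∈ Ps Φ v, (inner ℝ w a : ℝ) = Kst * (Pd d m x : ℝ) := by
    intro x w hw
    rw [ps_sorted43 F hs h0 hd (fun a => (inner ℝ w a : ℝ))]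
    have h1 : ∀ (s : ℝ) (i j : Fin m), (inner ℝ w (c • (e i + s • e j)) : ℝ) =
        c ^ 2 * (((2 * x i + Vd d m i : ℤ) : ℝ) + s * ((2 * x j + Vd d m j : ℤ) : ℝ)) := by
      intro s i j
      rw [inner_smul_right, inner_add_right, inner_smul_right, hw, hw]
      ring
    have h2 : ∀ i : Fin m, (inner ℝ w ((d * c : ℝ) • e i) : ℝ) = (d * c ^ 2 : ℝ) * ((2 * x i + Vd d m i : ℤ) : ℝ) := by
      intro i
      rw [inner_smul_right, hw]
      ring
    simp only [h1, h2]
    have h3 : (∏ i : Fin m, ∏ j ∈ Finset.Ioi i,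
          c ^ 2 * (((2 * x i + Vd d m i : ℤ) : ℝ) + -1 * ((2 * x j + Vd d m j : ℤ) : ℝ))) *
        (∏ i : Fin m, ∏ j ∈ Finset.Ioi i,
          c ^ 2 * (((2 * x i + Vd d m i : ℤ) : ℝ) + 1 * ((2 * x j + Vd d m j : ℤ) : ℝ))) =
        (∏ i : Fin m, ∏ _j ∈ Finset.Ioi i, c ^ 4) * ∏ i : Fin m, ∏ j ∈ Finset.Ioi i,
          (((2 * x i + Vd d m i : ℤ) : ℝ) ^ 2 - ((2 * x j + Vd d m j : ℤ) : ℝ) ^ 2) := by
      rw [← Finset.prod_mul_distrib, ← Finset.prod_mul_distrib]
      apply Finset.prod_congr rfl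
      intro i _
      rw [← Finset.prod_mul_distrib, ← Finset.prod_mul_distrib]
      apply Finset.prod_congr rfl
      intro j _
      ring
    rw [h3, hKst]
    unfold Pd
    by_cases hd0 : d = 0
    · simp only [hd0, if_true]
      push_cast
      ring
    · simp only [hd0, if_false]
      rw [Finset.prod_mul_distrib]
      push_cast
      ring
  have h1 := h.dim
  rw [hprod 0 v (by
      intro i
      rw [hv]
      simp), hprod k ((2 : ℝ) • l + v) (by
      intro i
      rw [inner_add_left, inner_smul_left, hk, hv]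
      simp only [conj_trivial]
      push_cast
      ring)] at h1
  refine ⟨hmon, ?_, hne⟩
  have h3 : Kst * ((n : ℝ) * (Pd d m 0 : ℝ)) = Kst * (Pd d m k : ℝ) := by
    rw [← h1]
    ring
  have h4 := mul_left_cancel₀ hK0 h3
  exact_mod_cast h4

/-- **PW-D** -/
theorem dim_fr {e : Fin m → E} {c : ℝ} {d : ℕ} (h : Wd Φ X n l v) (F : Fr Φ m e c d) (hm : 2 ≤ m) {k : Fin m → ℤ}
    (hk : ∀ i, (inner ℝ l (e i) : ℝ) = c * k i) :
    ∃ x : Fin m → ℤ, ∑ i, |x i| = ∑ i, |k i| ∧ (∀ i j, i < j → |x j| ≤ x i) ∧ n * Pd d m 0 = Pd d m x ∧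
      Pd d m 0 ≠ 0 := by
  have hc := F.pos
  set σ : Equiv.Perm (Fin m) := Tuple.sort fun i => -|(inner ℝ v (e i) : ℝ)| with hσ
  have hmono : Monotone ((fun i => -|(inner ℝ v (e i) : ℝ)|) ∘ σ) := Tuple.monotone_sort _
  set s : Fin m → ℤ := fun i => if 0 ≤ (inner ℝ v (e (σ i)) : ℝ) then 1 else -1 with hs'
  have hs1 : ∀ i, s i = 1 ∨ s i = -1 := by
    intro i
    simp only [hs']
    split_ifs
    · left; rfl
    · right; rfl
  have F' := fr_perm43 F σ (fun i => (s i : ℝ)) (by
    intro i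
    rcases hs1 i with h | h <;> rw [h]
    · left; norm_num
    · right; norm_num)
  have hvi : ∀ i, (inner ℝ v ((s i : ℝ) • e (σ i)) : ℝ) = |(inner ℝ v (e (σ i)) : ℝ)| := by
    intro i
    rw [inner_smul_right]
    simp only [hs']
    split_ifs with h1
    · rw [abs_of_nonneg h1]
      simp
    · push Not at h1
      rw [abs_of_neg h1]
      simp
  have hsort : ∀ i j, i < j → (inner ℝ v ((s j : ℝ) • e (σ j)) : ℝ) < inner ℝ v ((s i : ℝ) • e (σ i)) := by
    intro i j hij
    rw [hvi, hvi]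
    have h1 := hmono hij.le
    simp only [Function.comp_apply] at h1
    rcases lt_or_eq_of_le (show |(inner ℝ v (e (σ j)) : ℝ)| ≤ |inner ℝ v (e (σ i))| by linarith) with h2 | h2
    · exact h2
    · exfalso
      have hne : σ i ≠ σ j := fun h3 => (ne_of_lt hij) (σ.injective h3)
      rcases abs_eq_abs.1 h2 with h3 | h3
      · refine h.reg (c • (e (σ i) - e (σ j))) ((F.mem _).2 (Or.inl ⟨σ i, σ j, hne, Or.inr (Or.inl rfl)⟩)) ?_
        rw [inner_smul_right, inner_sub_right, h3, sub_self, mul_zero]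
      · refine h.reg (c • (e (σ i) + e (σ j))) ((F.mem _).2 (Or.inl ⟨σ i, σ j, hne, Or.inl rfl⟩)) ?_
        rw [inner_smul_right, inner_add_right, h3, add_neg_cancel, mul_zero]
  have h0 : ∀ i, 0 ≤ (inner ℝ v ((s i : ℝ) • e (σ i)) : ℝ) := by
    intro i
    rw [hvi]
    exact abs_nonneg _
  have hd : d ≠ 0 → ∀ i, 0 < (inner ℝ v ((s i : ℝ) • e (σ i)) : ℝ) := by
    intro hd0 i
    rw [hvi, abs_pos]
    intro h1
    refine h.reg ((d * c : ℝ) • e (σ i)) ((F.mem _).2 (Or.inr ⟨hd0, σ i, Or.inl rfl⟩)) ?_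
    rw [inner_smul_right, h1, mul_zero]
  obtain ⟨h1, h2, h3⟩ := dim_fr_sorted43 h F' hsort h0 hd (k := fun i => s i * k (σ i)) (by
    intro i
    rw [inner_smul_right, hk]
    push_cast
    ring)
  refine ⟨fun i => s i * k (σ i), ?_, h1, h2, h3⟩
  have h4 : ∀ i, |s i * k (σ i)| = |k (σ i)| := by
    intro i
    rw [abs_mul]
    rcases hs1 i with h | h <;> rw [h] <;> simp
  simp only [h4]
  exact Equiv.sum_comp σ fun i => |k i|

end PW
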