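import Pool.Agent.Helper81.PW.Defs

/-!
Project PW (MP_b8862a_ag), block PW-D': Weyl's dimension formula in coordinates, type `A`.
-/

set_option linter.unusedSectionVars false
set_option linter.unusedVariables false

open Module PF TF

namespace PW

variable {E : Type*} [NormedAddCommGroup E] [InnerProductSpace ℝ E] {Φ X : Finset E} {m n : ℕ} {l v : E}

theorem frA_perm43 {u : Fin m → E} (F : FrA Φ m u) (σ : Equiv.Perm (Fin m)) : FrA Φ m (fun i => u (σ i)) where
  gram i j := by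
    rw [F.gram]
    simp only [σ.injective.eq_iff]
  mem a := by
    rw [F.mem]
    constructor
    · rintro ⟨i, j, hij, rfl⟩
      exact ⟨σ.symm i, σ.symm j, fun h => hij (σ.symm.injective h), by simp⟩
    · rintro ⟨i, j, hij, rfl⟩
      exact ⟨σ i, σ j, fun h => hij (σ.injective h), rfl⟩

theorem frA_dif43 {u : Fin m → E} (F : FrA Φ m u) (i j k : Fin m) :
    (inner ℝ (u i - u j) (u k) : ℝ) = (if i = k then 1 else 0) - (if j = k then 1 else 0) := by
  rw [inner_sub_left, F.gram, F.gram]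
  ring

theorem frA_inj43 {u : Fin m → E} (F : FrA Φ m u) {i j i' j' : Fin m} (hij : i ≠ j) (hij' : i' ≠ j')
    (h : u i - u j = u i' - u j') : i = i' ∧ j = j' := by
  have h1 := frA_dif43 F i j i
  have h2 := frA_dif43 F i j j
  rw [h, frA_dif43 F] at h1 h2
  rw [if_pos rfl, if_neg (Ne.symm hij)] at h1
  rw [if_neg hij, if_pos rfl] at h2
  constructor
  · by_contra hne
    rw [if_neg (Ne.symm hne)] at h1
    split_ifs at h1 <;> norm_num at h1
  · by_contra hne
    rw [if_neg (Ne.symm hne)] at h2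
    split_ifs at h2 <;> norm_num at h2

/-- the formula in an ordered frame -/
theorem dim_frA_sorted43 {u : Fin m → E} (h : Wd Φ X n l v) (F : FrA Φ m u) {k : Fin m → ℤ}
    (hk : ∀ i, (inner ℝ l (u i) : ℝ) = k i) (hs : ∀ i j, i < j → (inner ℝ v (u j) : ℝ) < inner ℝ v (u i)) :
    (∀ i j, i < j → k j ≤ k i) ∧ n * Pa m 0 = Pa m k ∧ Pa m 0 ≠ 0 := by
  classical
  set D : Finset ((_ : Fin m) × Fin m) := (Finset.univ : Finset (Fin m)).sigma fun i => Finset.Ioi i with hD
  have hmemD : ∀ q : (_ : Fin m) × Fin m, q ∈ D ↔ q.1 < q.2 := by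
    intro q
    simp [hD]
  have hPs : Ps Φ v = D.image fun q => u q.1 - u q.2 := by
    ext a
    unfold Ps
    rw [Finset.mem_filter, Finset.mem_image]
    constructor
    · rintro ⟨ha, hpos⟩
      obtain ⟨i, j, hij, rfl⟩ := (F.mem a).1 ha
      rcases lt_or_gt_of_ne hij with h1 | h1
      · exact ⟨⟨i, j⟩, (hmemD _).2 h1, rfl⟩
      · have h2 := hs j i h1
        rw [inner_sub_right] at hpos
        linarith
    · rintro ⟨q, hq, rfl⟩
      have h1 := (hmemD q).1 hq
      refine ⟨(F.mem _).2 ⟨q.1, q.2, ne_of_lt h1, rfl⟩, ?_⟩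
      rw [inner_sub_right]
      have := hs _ _ h1
      linarith
  have hinj : Set.InjOn (fun q : (_ : Fin m) × Fin m => u q.1 - u q.2) (D : Set ((_ : Fin m) × Fin m)) := by
    rintro ⟨i, j⟩ hq ⟨i', j'⟩ hq' heq
    have h1 := (hmemD _).1 (Finset.mem_coe.1 hq)
    have h2 := (hmemD _).1 (Finset.mem_coe.1 hq')
    obtain ⟨h3, h4⟩ := frA_inj43 F (ne_of_lt h1) (ne_of_lt h2) heq
    simp only at h3 h4
    subst h3
    subst h4
    rfl
  -- the coordinates of `v`
  have hv : ∀ i : Fin m, (inner ℝ v (u i) : ℝ) = (m : ℝ) - 1 - 2 * (i : ℕ) := by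
    intro i
    have h1 : (inner ℝ v (u i) : ℝ) = ∑ a ∈ Ps Φ v, inner ℝ a (u i) := by
      conv_lhs => rw [h.v_eq]
      rw [sum_inner]
    rw [h1, hPs, Finset.sum_image hinj, hD, Finset.sum_sigma]
    simp only [frA_dif43 F]
    have h2 : ∀ a : Fin m, ∑ b ∈ Finset.Ioi a, ((if a = i then (1 : ℝ) else 0) - (if b = i then 1 else 0)) =
        (if a = i then ((m - 1 - (i : ℕ) : ℕ) : ℝ) else 0) - (if a < i then 1 else 0) := by
      intro a
      rw [Finset.sum_sub_distrib, Finset.sum_const, Fin.card_Ioi, nsmul_eq_mul, Finset.sum_ite_eq']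
      simp only [Finset.mem_Ioi]
      congr 1
      by_cases ha : a = i
      · subst ha
        simp
      · simp [ha]
    rw [Finset.sum_congr rfl fun a _ => h2 a, Finset.sum_sub_distrib, Finset.sum_ite_eq', if_pos (Finset.mem_univ _),
      Finset.sum_ite, Finset.sum_const_zero, add_zero, Finset.sum_const, nsmul_eq_mul, mul_one]
    have h3 : (Finset.univ.filter fun a : Fin m => a < i).card = (i : ℕ) := by
      have h4 : (Finset.univ.filter fun a : Fin m => a < i) = Finset.Iio i := by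
        ext a
        simp
      rw [h4, Fin.card_Iio]
    rw [h3]
    have h5 := i.2
    have h6 : m - 1 - (i : ℕ) + 1 + (i : ℕ) = m := by omega
    have h7 : ((m - 1 - (i : ℕ) : ℕ) : ℝ) + 1 + (i : ℕ) = m := by exact_mod_cast h6
    linarith
  have hmon : ∀ i j, i < j → k j ≤ k i := by
    intro i j hij
    have h1 : u i - u j ∈ Ps Φ v := by
      rw [hPs]
      exact Finset.mem_image.2 ⟨⟨i, j⟩, (hmemD _).2 hij, rfl⟩
    have h2 := h.dom _ h1
    rw [inner_sub_right, hk, hk] at h2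
    have h3 : (k j : ℝ) ≤ k i := by linarith
    exact_mod_cast h3
  have hne : Pa m 0 ≠ 0 := by
    unfold Pa
    rw [Finset.prod_ne_zero_iff]
    intro i _
    rw [Finset.prod_ne_zero_iff]
    intro j hj
    have h1 := Finset.mem_Ioi.1 hj
    have h2 : (i : ℕ) < (j : ℕ) := h1
    simp only [Pi.zero_apply]
    omega
  have hprod : ∀ (x : Fin m → ℤ) (g : E → ℝ), (∀ i j, i < j → g (u i - u j) = 2 * ((x i - x j + ((j : ℕ) - (i : ℕ)) : ℤ) : ℝ)) →
      ∏ a ∈ Ps Φ v, g a = 2 ^ D.card * (Pa m x : ℝ) := by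
    intro x g hg
    rw [hPs, Finset.prod_image hinj]
    have h1 : ∏ q ∈ D, g (u q.1 - u q.2) =
        ∏ q ∈ D, (2 * ((x q.1 - x q.2 + ((q.2 : ℕ) - (q.1 : ℕ)) : ℤ) : ℝ)) :=
      Finset.prod_congr rfl fun q hq => hg _ _ ((hmemD q).1 hq)
    rw [h1, Finset.prod_mul_distrib, Finset.prod_const, hD, Finset.prod_sigma]
    unfold Pa
    push_cast
    rfl
  have h1 := h.dim
  rw [hprod 0 (fun a => (inner ℝ v a : ℝ)) (by
      intro i j hij
      rw [inner_sub_right, hv, hv]
      simp only [Pi.zero_apply]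
      push_cast
      ring),
    hprod k (fun a => (inner ℝ ((2 : ℝ) • l + v) a : ℝ)) (by
      intro i j hij
      rw [inner_add_left, inner_smul_left, inner_sub_right, inner_sub_right, hv, hv, hk, hk]
      simp only [conj_trivial]
      push_cast
      ring)] at h1
  refine ⟨hmon, ?_, hne⟩
  have h2 : (2 : ℝ) ^ D.card ≠ 0 := by positivity
  have h3 : (2 : ℝ) ^ D.card * ((n : ℝ) * (Pa m 0 : ℝ)) = 2 ^ D.card * (Pa m k : ℝ) := by
    rw [← h1]
    ring
  have h4 := mul_left_cancel₀ h2 h3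
  exact_mod_cast h4

/-- **PW-D'** -/
theorem dim_frA {u : Fin m → E} (h : Wd Φ X n l v) (F : FrA Φ m u) (hm : 2 ≤ m) {k : Fin m → ℤ}
    (hk : ∀ i, (inner ℝ l (u i) : ℝ) = k i) :
    ∃ x : Fin m → ℤ, ∑ i, |x i| = ∑ i, |k i| ∧ (∀ i j, i < j → x j ≤ x i) ∧ n * Pa m 0 = Pa m x ∧ Pa m 0 ≠ 0 := by
  set σ : Equiv.Perm (Fin m) := Tuple.sort fun i => -(inner ℝ v (u i) : ℝ) with hσ
  have hmono : Monotone ((fun i => -(inner ℝ v (u i) : ℝ)) ∘ σ) := Tuple.monotone_sort _
  have F' := frA_perm43 F σ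
  have hs : ∀ i j, i < j → (inner ℝ v (u (σ j)) : ℝ) < inner ℝ v (u (σ i)) := by
    intro i j hij
    have h1 := hmono hij.le
    simp only [Function.comp_apply] at h1
    rcases lt_or_eq_of_le (show (inner ℝ v (u (σ j)) : ℝ) ≤ inner ℝ v (u (σ i)) by linarith) with h2 | h2
    · exact h2
    · exfalso
      refine h.reg (u (σ i) - u (σ j)) ((F.mem _).2 ⟨σ i, σ j, fun h3 => (ne_of_lt hij) (σ.injective h3), rfl⟩) ?_
      rw [inner_sub_right, h2, sub_self]
  obtain ⟨h1, h2, h3⟩ := dim_frA_sorted43 h F' (k := fun i => k (σ i)) (fun i => hk (σ i)) hs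
  exact ⟨fun i => k (σ i), Equiv.sum_comp σ fun i => |k i|, h1, h2, h3⟩

end PW
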